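import Pool.Agent.R3M.Stmts

/-!
# R3M, module FIN: the rainbow form
-/

set_option autoImplicit false

namespace Pool.Agent.R3M.H67

open Pool.Agent.R3M

/-- FIN. -/
theorem fin (par : ParStmt) : FinStmt := by
  intro α _ M N n A B C S hA hB hC hS
  classical
  let JA : Finset (Fin n) := Finset.univ.filter (fun i => S i = A)
  let JB : Finset (Fin n) := Finset.univ.filter (fun i => S i ≠ A ∧ S i = B)
  let JC : Finset (Fin n) := Finset.univ.filter (fun i => S i ≠ A ∧ S i ≠ B)
  have hcard : JA.card + JB.card + JC.card = n := by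
    have h1 : JA.card + (Finset.univ.filter (fun i => ¬ S i = A)).card =
        (Finset.univ : Finset (Fin n)).card :=
      Finset.card_filter_add_card_filter_not (fun i : Fin n => S i = A)
    have h2 : JB.card + JC.card = (Finset.univ.filter (fun i => ¬ S i = A)).card := by
      have h3 := Finset.card_filter_add_card_filter_not
        (s := Finset.univ.filter (fun i : Fin n => ¬ S i = A)) (fun i : Fin n => S i = B)
      rw [Finset.filter_filter, Finset.filter_filter] at h3
      exact h3
    rw [Finset.card_univ, Fintype.card_fin] at h1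
    omega
  obtain ⟨A', B', C', hAA, hBB, hCC, cA, cB, cC, dAB, dAC, dBC, iM, iN⟩ :=
    par α M N n A B C JA.card JB.card JC.card hA hB hC hcard
  have eA : JA ≃ A' := Finset.equivOfCardEq cA.symm
  have eB : JB ≃ B' := Finset.equivOfCardEq cB.symm
  have eC : JC ≃ C' := Finset.equivOfCardEq cC.symm
  have mA : ∀ i : Fin n, S i = A → i ∈ JA := fun i h =>
    Finset.mem_filter.mpr ⟨Finset.mem_univ i, h⟩
  have mB : ∀ i : Fin n, S i ≠ A → S i = B → i ∈ JB := fun i h h' =>
    Finset.mem_filter.mpr ⟨Finset.mem_univ i, h, h'⟩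
  have mC : ∀ i : Fin n, S i ≠ A → S i ≠ B → i ∈ JC := fun i h h' =>
    Finset.mem_filter.mpr ⟨Finset.mem_univ i, h, h'⟩
  let x : Fin n → α := fun i =>
    if h : S i = A then (eA ⟨i, mA i h⟩ : α)
    else if h' : S i = B then (eB ⟨i, mB i h h'⟩ : α)
    else (eC ⟨i, mC i h h'⟩ : α)
  have xA : ∀ i (h : S i = A), x i = (eA ⟨i, mA i h⟩ : α) := fun i h => dif_pos h
  have xB : ∀ i (h : S i ≠ A) (h' : S i = B), x i = (eB ⟨i, mB i h h'⟩ : α) := by
    intro i h h'
    show (if h : S i = A then (eA ⟨i, mA i h⟩ : α)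
      else if h' : S i = B then (eB ⟨i, mB i h h'⟩ : α)
      else (eC ⟨i, mC i h h'⟩ : α)) = _
    rw [dif_neg h, dif_pos h']
  have xC : ∀ i (h : S i ≠ A) (h' : S i ≠ B), x i = (eC ⟨i, mC i h h'⟩ : α) := by
    intro i h h'
    show (if h : S i = A then (eA ⟨i, mA i h⟩ : α)
      else if h' : S i = B then (eB ⟨i, mB i h h'⟩ : α)
      else (eC ⟨i, mC i h h'⟩ : α)) = _
    rw [dif_neg h, dif_neg h']
  have xAm : ∀ i, S i = A → x i ∈ A' := fun i h => by
    rw [xA i h]; exact (eA ⟨i, mA i h⟩).2
  have xBm : ∀ i, S i ≠ A → S i = B → x i ∈ B' := fun i h h' => by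
    rw [xB i h h']; exact (eB ⟨i, mB i h h'⟩).2
  have xCm : ∀ i, S i ≠ A → S i ≠ B → x i ∈ C' := fun i h h' => by
    rw [xC i h h']; exact (eC ⟨i, mC i h h'⟩).2
  have nAB : ∀ u, u ∈ A' → u ∈ B' → False := fun u h h' => Finset.disjoint_left.mp dAB h h'
  have nAC : ∀ u, u ∈ A' → u ∈ C' → False := fun u h h' => Finset.disjoint_left.mp dAC h h'
  have nBC : ∀ u, u ∈ B' → u ∈ C' → False := fun u h h' => Finset.disjoint_left.mp dBC h h'
  have hr : Set.range x ⊆ ((A' ∪ B' ∪ C' : Finset α) : Set α) := by
    rintro u ⟨i, rfl⟩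
    rw [Finset.mem_coe, Finset.mem_union, Finset.mem_union]
    by_cases h : S i = A
    · exact Or.inl (Or.inl (xAm i h))
    · by_cases h' : S i = B
      · exact Or.inl (Or.inr (xBm i h h'))
      · exact Or.inr (xCm i h h')
  refine ⟨x, ?_, ?_, iM.subset hr, iN.subset hr⟩
  · intro i j hij
    by_cases h1 : S i = A
    · by_cases h2 : S j = A
      · rw [xA i h1, xA j h2] at hij
        have := eA.injective (Subtype.ext hij)
        exact congrArg Subtype.val this
      · exfalso
        by_cases h3 : S j = B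
        · exact nAB _ (xAm i h1) (hij ▸ xBm j h2 h3)
        · exact nAC _ (xAm i h1) (hij ▸ xCm j h2 h3)
    · by_cases h1' : S i = B
      · by_cases h2 : S j = A
        · exact (nAB _ (xAm j h2) (hij ▸ xBm i h1 h1')).elim
        · by_cases h3 : S j = B
          · rw [xB i h1 h1', xB j h2 h3] at hij
            have := eB.injective (Subtype.ext hij)
            exact congrArg Subtype.val this
          · exact (nBC _ (xBm i h1 h1') (hij ▸ xCm j h2 h3)).elim
      · by_cases h2 : S j = A
        · exact (nAC _ (xAm j h2) (hij ▸ xCm i h1 h1')).elim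
        · by_cases h3 : S j = B
          · exact (nBC _ (xBm j h2 h3) (hij ▸ xCm i h1 h1')).elim
          · rw [xC i h1 h1', xC j h2 h3] at hij
            have := eC.injective (Subtype.ext hij)
            exact congrArg Subtype.val this
  · intro i
    by_cases h : S i = A
    · rw [h]; exact hAA (xAm i h)
    · by_cases h' : S i = B
      · rw [h']; exact hBB (xBm i h h')
      · have h'' : S i = C := by
          rcases hS i with h3 | h3 | h3
          · exact absurd h3 h
          · exact absurd h3 h'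
          · exact h3
        rw [h'']; exact hCC (xCm i h h')

end Pool.Agent.R3M.H67
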