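import Pool.Agent.R3M.Stmts

/-!
# R3M, module PAR: parallel copies, from disjoint sets to arbitrary sets
-/

set_option autoImplicit false

namespace Pool.Agent.R3M.H67

open Pool.Agent.R3M

section
variable {α : Type} [DecidableEq α]

/-- Three parallel copies of every element. -/
def par3 (M : Matroid α) : Mat (Fin 3 × α) where
  Ind I := Set.InjOn Prod.snd (I : Set (Fin 3 × α)) ∧ M.Indep ((I.image Prod.snd : Finset α) : Set α)
  emp := by
    refine ⟨?_, ?_⟩
    · intro x hx
      exact absurd hx (by simp)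
    · simp
  sub := by
    intro I J hJ hIJ
    refine ⟨hJ.1.mono (by exact_mod_cast hIJ), ?_⟩
    refine hJ.2.subset ?_
    have := Finset.image_subset_image (f := Prod.snd) hIJ
    exact_mod_cast this
  aug := by
    intro I J hI hJ hc
    have h1 : (I.image Prod.snd).card = I.card := Finset.card_image_of_injOn hI.1
    have h2 : (J.image Prod.snd).card = J.card := Finset.card_image_of_injOn hJ.1
    obtain ⟨e, heJ, heI, he⟩ := hI.2.augment_finset hJ.2 (by omega)
    obtain ⟨u, hu, rfl⟩ := Finset.mem_image.mp heJ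
    have huI : u ∉ I := fun h => heI (Finset.mem_image_of_mem _ h)
    refine ⟨u, hu, huI, ?_, ?_⟩
    · rw [Finset.coe_insert]
      rw [Set.injOn_insert (by exact_mod_cast huI)]
      refine ⟨hI.1, ?_⟩
      intro h
      apply heI
      rw [Finset.mem_image]
      obtain ⟨v, hv, hv2⟩ := h
      exact ⟨v, by exact_mod_cast hv, hv2⟩
    · rw [Finset.image_insert, Finset.coe_insert]
      exact he

/-- Copy number `i` of the set `A`. -/
def cop (i : Fin 3) (A : Finset α) : Finset (Fin 3 × α) := A.image (fun x => (i, x))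

theorem mem_cop {i : Fin 3} {A : Finset α} {u : Fin 3 × α} :
    u ∈ cop i A ↔ u.1 = i ∧ u.2 ∈ A := by
  unfold cop
  rw [Finset.mem_image]
  constructor
  · rintro ⟨x, hx, rfl⟩
    exact ⟨rfl, hx⟩
  · rintro ⟨rfl, h⟩
    exact ⟨u.2, h, rfl⟩

theorem cop_disj {i j : Fin 3} (h : i ≠ j) (A B : Finset α) : Disjoint (cop i A) (cop j B) := by
  rw [Finset.disjoint_left]
  intro u hu hv
  exact h ((mem_cop.mp hu).1.symm.trans (mem_cop.mp hv).1)

theorem cop_ci (M N : Matroid α) (k : ℕ) (i : Fin 3) (A : Finset α)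
    (h : M.Indep (A : Set α) ∧ N.Indep (A : Set α) ∧ A.card = k) :
    CI (par3 M) (par3 N) k (cop i A) := by
  have hinj : Set.InjOn Prod.snd ((cop i A : Finset (Fin 3 × α)) : Set (Fin 3 × α)) := by
    intro u hu v hv huv
    have h1 := mem_cop.mp (Finset.mem_coe.mp hu)
    have h2 := mem_cop.mp (Finset.mem_coe.mp hv)
    exact Prod.ext (h1.1.trans h2.1.symm) huv
  have him : (cop i A).image Prod.snd = A := by
    unfold cop
    rw [Finset.image_image]
    exact Finset.image_id
  refine ⟨⟨hinj, ?_⟩, ⟨hinj, ?_⟩, ?_⟩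
  · rw [him]; exact h.1
  · rw [him]; exact h.2.1
  · have := Finset.card_image_of_injOn hinj
    rw [him] at this
    rw [← this]; exact h.2.2

end

/-- PAR. -/
theorem par (mai : MaiStmt) : ParStmt := by
  intro α _ M N n A B C b a c hA hB hC habc
  obtain ⟨I, hI, hsub, hb, ha, hc⟩ := mai (Fin 3 × α) (par3 M) (par3 N) n (cop 0 A) (cop 1 B)
    (cop 2 C) b a c (cop_ci M N (n + 1) 0 A hA) (cop_ci M N (n + 1) 1 B hB)
    (cop_ci M N (n + 1) 2 C hC) (cop_disj (by decide) A B) (cop_disj (by decide) A C)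
    (cop_disj (by decide) B C) habc
  have hinj : Set.InjOn Prod.snd (I : Set (Fin 3 × α)) := hI.1.1
  have key : ∀ (i : Fin 3) (D : Finset α), ((I ∩ cop i D).image Prod.snd).card =
      (I ∩ cop i D).card := by
    intro i D
    refine Finset.card_image_of_injOn (hinj.mono ?_)
    intro u hu
    exact Finset.mem_coe.mpr (Finset.mem_inter.mp (Finset.mem_coe.mp hu)).1
  have hsubD : ∀ (i : Fin 3) (D : Finset α), (I ∩ cop i D).image Prod.snd ⊆ D := by
    intro i D x hx
    obtain ⟨u, hu, rfl⟩ := Finset.mem_image.mp hx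
    exact (mem_cop.mp (Finset.mem_inter.mp hu).2).2
  have hdis : ∀ (i j : Fin 3) (D E : Finset α), i ≠ j →
      Disjoint ((I ∩ cop i D).image Prod.snd) ((I ∩ cop j E).image Prod.snd) := by
    intro i j D E hij
    rw [Finset.disjoint_left]
    intro x hx hy
    obtain ⟨u, hu, rfl⟩ := Finset.mem_image.mp hx
    obtain ⟨v, hv, hvu⟩ := Finset.mem_image.mp hy
    rw [Finset.mem_inter] at hu hv
    have huv : v = u := hinj (Finset.mem_coe.mpr hv.1) (Finset.mem_coe.mpr hu.1) hvu
    apply hij
    rw [← (mem_cop.mp hu.2).1, ← (mem_cop.mp hv.2).1, huv]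
  have hun : ((I ∩ cop 0 A).image Prod.snd ∪ (I ∩ cop 1 B).image Prod.snd ∪
      (I ∩ cop 2 C).image Prod.snd) ⊆ I.image Prod.snd := by
    refine Finset.union_subset (Finset.union_subset ?_ ?_) ?_
    · exact Finset.image_subset_image Finset.inter_subset_left
    · exact Finset.image_subset_image Finset.inter_subset_left
    · exact Finset.image_subset_image Finset.inter_subset_left
  refine ⟨(I ∩ cop 0 A).image Prod.snd, (I ∩ cop 1 B).image Prod.snd,
    (I ∩ cop 2 C).image Prod.snd, hsubD 0 A, hsubD 1 B, hsubD 2 C, ?_, ?_, ?_,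
    hdis 0 1 A B (by decide), hdis 0 2 A C (by decide), hdis 1 2 B C (by decide), ?_, ?_⟩
  · rw [key]; exact hb
  · rw [key]; exact ha
  · rw [key]; exact hc
  · refine hI.1.2.subset ?_
    exact_mod_cast hun
  · refine hI.2.1.2.subset ?_
    exact_mod_cast hun

end Pool.Agent.R3M.H67
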